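import Pool.Agent.X224.SP.Minor

/-!
Intermediate spectator numbers: every integer between the spectator floor and the spectator number
of `G` is the spectator number of a supergraph of `G`.
-/

namespace Pool.Agent.Results.MP_aba9fe_co.IntermediateSpectator

open Pool.Agent.X224.SP

/-- For every multigraph `G` and every `i` with `sf(G) ≤ i ≤ sp(G)` there is a supergraph `F` of `G`
(on the same vertex set) with `sp(F) = i`. -/
theorem result (G : MGraph) (i : ℕ) (h1 : sf G ≤ i) (h2 : i ≤ sp G) :
    ∃ F : MGraph, Super G F ∧ sp F = i :=
  intermediate G i h1 h2

end Pool.Agent.Results.MP_aba9fe_co.IntermediateSpectator
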